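import Pool.Agent.H57.LH.Targets2
import Pool.Agent.H50.PT.PAR

/-!
# Row KHE: `K₃` and structures to which the same finite structures map
-/

set_option autoImplicit false

namespace Pool.Agent.H13.LH

open Pool.Agent.H68.BP Pool.Agent.H58.SF Pool.Agent.H53.GC Pool.Agent.H53.NR
open Pool.Agent.H53.GR (Dm Ps)
open Pool.Agent.H57.AR (tp ty tpo pullO Ty OT HomEq El ElD FamR Od GmR INJ lft)
open Pool.Agent.H57.SO (Pal Col vt Bh Sbn fib sigF)
open Pool.Agent.H57.EQ (Cx T_CYF)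
open Pool.Agent.H57.LCI (LocalCompletions Pre Realizes)
open Pool.Agent.H44.KR (HB Amg Tyi Rz Rlz Clp LInj Prm TpOn RmL LcN Pl lr blk Fv kv RkI Kd JJ Yc IsTh
  Can Plf Pls)
open Pool.Agent.H57.LH Function

section

variable {V₁ V₂ : Type} {σ : Sig} (A₁ : Str σ V₁) (A₂ : Str σ V₂) (en : ℕ → V₁)

/-- `y` is a homomorphism on the first `m` points -/
def Hm (m : ℕ) (y : ℕ → V₂) : Prop :=
  ∀ (l : Fin σ.m) (t : Fin (σ.ar l) → ℕ), (∀ i, t i < m) → A₁ l (fun i => en (t i)) →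
    A₂ l (fun i => y (t i))

/-- `x` has extensions of every length -/
def Gd (n : ℕ) (x : ℕ → V₂) : Prop := ∀ m, ∃ y, Hm A₁ A₂ en m y ∧ ∀ i < n, y i = x i

variable {A₁ A₂ en}

theorem Hm.mono {m m' : ℕ} {y : ℕ → V₂} (h : Hm A₁ A₂ en m' y) (hm : m ≤ m') :
    Hm A₁ A₂ en m y := fun l t ht ha => h l t (fun i => (ht i).trans_le hm) ha

theorem gd_zero (v₀ : V₂)
    (h : ∀ (n : ℕ) (𝕏 : Str σ (Fin n)), (∃ f, IsHom 𝕏 A₁ f) → ∃ f, IsHom 𝕏 A₂ f) (x : ℕ → V₂) :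
    Gd A₁ A₂ en 0 x := by
  intro m
  obtain ⟨f, hf⟩ := h m (pull A₁ (fun i : Fin m => en i)) ⟨fun i => en i, fun l z hz => hz⟩
  refine ⟨fun j => if hj : j < m then f ⟨j, hj⟩ else v₀, ?_, fun i hi => absurd hi (Nat.not_lt_zero i)⟩
  intro l t ht ha
  have h1 := hf l (fun i => ⟨t i, ht i⟩) ha
  have h2 : (fun i => (fun j => if hj : j < m then f ⟨j, hj⟩ else v₀) (t i)) =
      fun i => f ⟨t i, ht i⟩ := by
    funext i
    exact dif_pos (ht i)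
  rw [h2]
  exact h1

theorem gd_succ (hO : Oligo A₂) {n : ℕ} {x : ℕ → V₂} (hx : Gd A₁ A₂ en n x) :
    ∃ z, Gd A₁ A₂ en (n + 1) z ∧ ∀ i < n, z i = x i := by
  choose y hy1 hy2 using hx
  obtain ⟨R, hR⟩ := hO (n + 1)
  choose ρ hρ g hg hgx using fun m => hR (fun i : Fin (n + 1) => y m i)
  obtain ⟨r, hr⟩ := Finite.exists_infinite_fiber (fun m : ℕ => (⟨ρ m, hρ m⟩ : R))
  have hr' : ((fun m : ℕ => (⟨ρ m, hρ m⟩ : R)) ⁻¹' {r}).Infinite := Set.infinite_coe_iff.1 hr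
  obtain ⟨m₀, hm₀⟩ := hr'.nonempty
  refine ⟨y m₀, ?_, hy2 m₀⟩
  intro m
  obtain ⟨m', hm', hlt⟩ := hr'.exists_gt m
  have e0 : ρ m₀ = r := congrArg Subtype.val hm₀
  have e1 : ρ m' = r := congrArg Subtype.val hm'
  refine ⟨fun j => g m₀ ((g m').symm (y m' j)), ?_, ?_⟩
  · intro l t ht ha
    have h1 := (hy1 m').mono hlt.le l t ht ha
    have h2 : A₂ l (fun i => (g m').symm (y m' (t i))) := by
      rw [hg m' l]
      have : (fun i => (g m') ((g m').symm (y m' (t i)))) = fun i => y m' (t i) := by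
        funext i
        exact (g m').apply_symm_apply _
      rw [this]
      exact h1
    exact (hg m₀ l _).1 h2
  · intro i hi
    have h1 := hgx m' ⟨i, hi⟩
    have h2 := hgx m₀ ⟨i, hi⟩
    change g m₀ ((g m').symm (y m' i)) = y m₀ i
    simp only at h1 h2
    rw [← h1, Equiv.symm_apply_apply, e1, ← e0, h2]

/-- Countable structures, compactness: homomorphisms to an oligomorphic structure. -/
theorem hom_of_finite [Countable V₁] [Nonempty V₁] [Nonempty V₂] (hO : Oligo A₂)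
    (h : ∀ (n : ℕ) (𝕏 : Str σ (Fin n)), (∃ f, IsHom 𝕏 A₁ f) → ∃ f, IsHom 𝕏 A₂ f) :
    ∃ f : V₁ → V₂, IsHom A₁ A₂ f := by
  obtain ⟨en, hen⟩ := exists_surjective_nat V₁
  obtain ⟨v₀⟩ := ‹Nonempty V₂›
  choose k hk using hen
  choose nx hn1 hn2 using fun (n : ℕ) (x : ℕ → V₂) (hx : Gd A₁ A₂ en n x) => gd_succ hO hx
  let s : (n : ℕ) → {x : ℕ → V₂ // Gd A₁ A₂ en n x} := fun n =>
    Nat.rec ⟨fun _ => v₀, gd_zero v₀ h _⟩ (fun n x => ⟨nx n x.1 x.2, hn1 n x.1 x.2⟩) n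
  have hs : ∀ n, ∀ i < n, (s (n + 1)).1 i = (s n).1 i := fun n => hn2 n (s n).1 (s n).2
  have hs2 : ∀ i n, i < n → (s n).1 i = (s (i + 1)).1 i := by
    intro i n hn
    induction n with
    | zero => omega
    | succ n ih =>
      by_cases hin : i < n
      · rw [hs n i hin, ih hin]
      · have : i = n := by omega
        rw [this]
  refine ⟨fun v => (s (k v + 1)).1 (k v), ?_⟩
  intro l x hx
  obtain ⟨N, hN⟩ : ∃ N, ∀ i, k (x i) < N := by
    refine ⟨Finset.univ.sup (fun i => k (x i)) + 1, fun i => ?_⟩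
    exact Nat.lt_succ_of_le (Finset.le_sup (f := fun i => k (x i)) (Finset.mem_univ i))
  obtain ⟨y, hy1, hy2⟩ := (s N).2 N
  have h1 := hy1 l (fun i => k (x i)) hN (by simpa only [hk] using hx)
  have h2 : (fun i => (s (k (x i) + 1)).1 (k (x i))) = fun i => y (k (x i)) := by
    funext i
    rw [hy2 _ (hN i), hs2 _ _ (hN i)]
  rw [h2]
  exact h1

end

/-- Row KHE. -/
theorem pf_KHE : T_KHE := by
  intro A V σ 𝔻 𝔸 _ _ _ _ hD hA he hK
  obtain ⟨f, hf⟩ := hom_of_finite (A₁ := 𝔻) (A₂ := 𝔸) hA (fun n 𝕏 => (he n 𝕏).1)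
  obtain ⟨g, hg⟩ := hom_of_finite (A₁ := 𝔸) (A₂ := 𝔻) hD (fun n 𝕏 => (he n 𝕏).2)
  exact Pool.Agent.H50.PT.ppc_of_homs hf hg hK

end Pool.Agent.H13.LH
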